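import Pool.Agent.N646.RO.Stm2
import Pool.Agent.H387R2.U2

/-!
# Project RQ, task SS (helper647): the singular series is bounded for most tuples
-/

set_option autoImplicit false

namespace Pool.Agent.N647.RQSS

open Finset Filter Topology
open Pool.Agent.H387R2.Uni

/-- the factor `(1 - 1/p)⁻¹` -/
noncomputable def rr (p : ℕ) : ℝ := (1 - 1 / (p : ℝ))⁻¹

/-- `d / φ(d)` -/
noncomputable def hh (d : ℕ) : ℝ := ∏ p ∈ d.primeFactors, rr p

lemma inv_le_half {p : ℕ} (hp : p.Prime) : 1 / (p : ℝ) ≤ 1 / 2 := by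
  have h : (2 : ℝ) ≤ p := by exact_mod_cast hp.two_le
  exact one_div_le_one_div_of_le (by norm_num) h

lemma inv_pos' {p : ℕ} (hp : p.Prime) : 0 < 1 / (p : ℝ) := by
  have h : (0 : ℝ) < p := by exact_mod_cast hp.pos
  positivity

lemma one_sub_pos {p : ℕ} (hp : p.Prime) : 0 < 1 - 1 / (p : ℝ) := by
  have := inv_le_half hp
  linarith

lemma one_le_rr {p : ℕ} (hp : p.Prime) : 1 ≤ rr p := by
  unfold rr
  rw [one_le_inv₀ (one_sub_pos hp)]
  have := inv_pos' hp
  linarith

lemma one_le_hh (d : ℕ) : 1 ≤ hh d :=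
  Finset.one_le_prod fun p hp => one_le_rr (Nat.prime_of_mem_primeFactors hp)

lemma hh_mul_le {a b : ℕ} (ha : a ≠ 0) (hb : b ≠ 0) : hh (a * b) ≤ hh a * hh b := by
  unfold hh
  rw [Nat.primeFactors_mul ha hb, ← Finset.prod_union_inter]
  refine le_mul_of_one_le_right ?_ ?_
  · refine Finset.prod_nonneg fun p hp => ?_
    rw [Finset.mem_union] at hp
    have hpp : p.Prime := by
      rcases hp with h | h <;> exact Nat.prime_of_mem_primeFactors h
    exact zero_le_one.trans (one_le_rr hpp)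
  · refine Finset.one_le_prod fun p hp => ?_
    rw [Finset.mem_inter] at hp
    exact one_le_rr (Nat.prime_of_mem_primeFactors hp.1)

lemma hh_prod_le {ι : Type} (s : Finset ι) (f : ι → ℕ) (hf : ∀ i ∈ s, f i ≠ 0) :
    hh (∏ i ∈ s, f i) ≤ ∏ i ∈ s, hh (f i) := by
  classical
  induction s using Finset.induction_on with
  | empty => simp [hh]
  | insert a s ha ih =>
    rw [Finset.prod_insert ha, Finset.prod_insert ha]
    have h1 := ih fun i hi => hf i (Finset.mem_insert_of_mem hi)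
    have h2 : hh (f a * ∏ i ∈ s, f i) ≤ hh (f a) * hh (∏ i ∈ s, f i) :=
      hh_mul_le (hf a (Finset.mem_insert_self _ _))
        (Finset.prod_ne_zero_iff.2 fun i hi => hf i (Finset.mem_insert_of_mem hi))
    exact h2.trans (mul_le_mul_of_nonneg_left h1 (zero_le_one.trans (one_le_hh _)))

/-! ### the average of `hh ^ q` -/

lemma rr_pow_le (q : ℕ) {p : ℕ} (hp : p.Prime) :
    rr p ^ q ≤ 1 + (2 : ℝ) ^ (q + 1) / p := by
  have h0 := inv_pos' hp
  have h1 := inv_le_half hp
  set t := 1 / (p : ℝ) with ht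
  have h2 : rr p ≤ 1 + 2 * t := by
    unfold rr
    rw [inv_le_iff_one_le_mul₀ (one_sub_pos hp), ← ht]
    nlinarith
  have h3 : ∀ n : ℕ, (1 + 2 * t) ^ n ≤ 1 + ((2 : ℝ) ^ n - 1) * (2 * t) := by
    intro n
    induction n with
    | zero => simp
    | succ n ih =>
      have h4 : (1 : ℝ) ≤ 2 ^ n := one_le_pow₀ (by norm_num)
      have h5 : (1 + 2 * t) ^ n * (1 + 2 * t) ≤
          (1 + ((2 : ℝ) ^ n - 1) * (2 * t)) * (1 + 2 * t) :=
        mul_le_mul_of_nonneg_right ih (by linarith)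
      rw [pow_succ, pow_succ]
      have h6 : ((2 : ℝ) ^ n - 1) * (2 * t) * (2 * t) ≤ ((2 : ℝ) ^ n - 1) * (2 * t) * 1 := by
        apply mul_le_mul_of_nonneg_left (by linarith)
        exact mul_nonneg (by linarith) (by linarith)
      nlinarith
  have h4 : rr p ^ q ≤ (1 + 2 * t) ^ q :=
    pow_le_pow_left₀ (zero_le_one.trans (one_le_rr hp)) h2 q
  have h5 := h3 q
  have h6 : (2 : ℝ) ^ (q + 1) / p = 2 ^ q * (2 * t) := by
    rw [ht, pow_succ]
    ring
  rw [h6]
  nlinarith

lemma hh_pow_le (q : ℕ) (d : ℕ) :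
    hh d ^ q ≤ ∑ S ∈ d.primeFactors.powerset, ∏ p ∈ S, ((2 : ℝ) ^ (q + 1) / p) := by
  unfold hh
  rw [← Finset.prod_pow, ← Finset.prod_one_add]
  refine Finset.prod_le_prod (fun p hp => ?_) (fun p hp => ?_)
  · exact pow_nonneg (zero_le_one.trans (one_le_rr (Nat.prime_of_mem_primeFactors hp))) _
  · exact rr_pow_le q (Nat.prime_of_mem_primeFactors hp)

lemma count_mult (m T : ℕ) (hm : 0 < m) :
    (((Ico 1 T).filter fun d => m ∣ d).card : ℝ) ≤ (T : ℝ) / m := by
  have h1 : ((Ico 1 T).filter fun d => m ∣ d).card ≤ T / m := by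
    have h2 : ((Ico 1 T).filter fun d => m ∣ d) ⊆ (Ioc 0 T).filter fun d => m ∣ d := by
      intro d hd
      simp only [Finset.mem_filter, Finset.mem_Ico, Finset.mem_Ioc] at hd ⊢
      exact ⟨⟨by omega, by omega⟩, hd.2⟩
    refine (Finset.card_le_card h2).trans ?_
    rw [Nat.Ioc_filter_dvd_card_eq_div]
  have h3 : ((T / m : ℕ) : ℝ) ≤ (T : ℝ) / m := Nat.cast_div_le
  exact (by exact_mod_cast h1 : (((Ico 1 T).filter fun d => m ∣ d).card : ℝ) ≤
    ((T / m : ℕ) : ℝ)).trans h3

lemma sum_sq_le (T : ℕ) (s : Finset ℕ) :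
    ∑ p ∈ s, 1 / (p : ℝ) ^ 2 ≤ ∑' n : ℕ, 1 / (n : ℝ) ^ 2 := by
  have h : Summable fun n : ℕ => 1 / (n : ℝ) ^ 2 := by
    exact Real.summable_one_div_nat_pow.2 (by norm_num)
  exact h.sum_le_tsum s fun n _ => by positivity

lemma avg (q : ℕ) : ∃ C : ℝ, 0 < C ∧ ∀ T : ℕ, ∑ d ∈ Ico 1 T, hh d ^ q ≤ C * T := by
  set c : ℝ := (2 : ℝ) ^ (q + 1) with hc
  have hc0 : 0 < c := by positivity
  refine ⟨Real.exp (c * ∑' n : ℕ, 1 / (n : ℝ) ^ 2), Real.exp_pos _, fun T => ?_⟩
  set P := T.primesBelow with hP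
  have h1 : ∀ d ∈ Ico 1 T, hh d ^ q ≤
      ∑ S ∈ P.powerset, if (∏ p ∈ S, p) ∣ d then ∏ p ∈ S, (c / p) else 0 := by
    intro d hd
    rw [Finset.mem_Ico] at hd
    refine (hh_pow_le q d).trans ?_
    have h2 : d.primeFactors.powerset ⊆ P.powerset := by
      rw [Finset.powerset_mono]
      intro p hp
      rw [hP, Nat.mem_primesBelow]
      exact ⟨(Nat.le_of_mem_primeFactors hp).trans_lt hd.2, Nat.prime_of_mem_primeFactors hp⟩
    have h3 : ∑ S ∈ d.primeFactors.powerset, ∏ p ∈ S, ((2 : ℝ) ^ (q + 1) / p) =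
        ∑ S ∈ d.primeFactors.powerset, if (∏ p ∈ S, p) ∣ d then ∏ p ∈ S, (c / p) else 0 := by
      refine Finset.sum_congr rfl fun S hS => ?_
      rw [Finset.mem_powerset] at hS
      rw [if_pos]
      apply Finset.prod_primes_dvd
      · intro p hp
        exact (Nat.prime_of_mem_primeFactors (hS hp)).prime
      · intro p hp
        exact Nat.dvd_of_mem_primeFactors (hS hp)
    rw [h3]
    refine Finset.sum_le_sum_of_subset_of_nonneg h2 fun S _ _ => ?_
    split_ifs
    · exact Finset.prod_nonneg fun p _ => by positivity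
    · exact le_rfl
  refine (Finset.sum_le_sum h1).trans ?_
  rw [Finset.sum_comm]
  have h4 : ∀ S ∈ P.powerset, (∑ d ∈ Ico 1 T, if (∏ p ∈ S, p) ∣ d then ∏ p ∈ S, (c / p) else 0) ≤
      T * ∏ p ∈ S, (c / (p : ℝ) ^ 2) := by
    intro S hS
    rw [Finset.mem_powerset] at hS
    have hpos : 0 < ∏ p ∈ S, p :=
      Finset.prod_pos fun p hp => (Nat.prime_of_mem_primesBelow (hS hp)).pos
    rw [← Finset.sum_filter, Finset.sum_const, nsmul_eq_mul]
    have h5 := count_mult (∏ p ∈ S, p) T hpos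
    have h6 : 0 ≤ ∏ p ∈ S, (c / (p : ℝ)) := Finset.prod_nonneg fun p _ => by positivity
    refine (mul_le_mul_of_nonneg_right h5 h6).trans (le_of_eq ?_)
    push_cast
    rw [div_mul_eq_mul_div, mul_div_assoc, ← Finset.prod_div_distrib]
    congr 1
    refine Finset.prod_congr rfl fun p _ => ?_
    rw [div_div, sq]
  refine (Finset.sum_le_sum h4).trans ?_
  rw [← Finset.mul_sum, ← Finset.prod_one_add, mul_comm]
  refine mul_le_mul_of_nonneg_right ?_ (Nat.cast_nonneg T)
  have h7 : ∏ p ∈ P, (1 + c / (p : ℝ) ^ 2) ≤ ∏ p ∈ P, Real.exp (c / (p : ℝ) ^ 2) := by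
    refine Finset.prod_le_prod (fun p _ => by positivity) fun p _ => ?_
    have := Real.add_one_le_exp (c / (p : ℝ) ^ 2)
    linarith
  refine h7.trans ?_
  rw [← Real.exp_sum]
  apply Real.exp_le_exp.2
  have h8 : ∑ p ∈ P, c / (p : ℝ) ^ 2 = c * ∑ p ∈ P, 1 / (p : ℝ) ^ 2 := by
    rw [Finset.mul_sum]
    refine Finset.sum_congr rfl fun p _ => ?_
    rw [mul_one_div]
  rw [h8]
  exact mul_le_mul_of_nonneg_left (sum_sq_le T P) hc0.le

/-! ### the bound for the constant -/

lemma nuT_le {T : Finset ℕ} {p : ℕ} (hp : p.Prime) : nuT T p ≤ p := by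
  unfold nuT
  have h : T.image (· % p) ⊆ range p := by
    intro x hx
    obtain ⟨t, _, rfl⟩ := Finset.mem_image.1 hx
    exact Finset.mem_range.2 (Nat.mod_lt _ hp.pos)
  simpa using Finset.card_le_card h

lemma locT_nonneg {T : Finset ℕ} {p : ℕ} (hp : p.Prime) : 0 ≤ locT T p := by
  unfold locT
  have h1 : (nuT T p : ℝ) ≤ p := by exact_mod_cast nuT_le hp
  have h2 : (0 : ℝ) < p := by exact_mod_cast hp.pos
  have h3 : (nuT T p : ℝ) / p ≤ 1 := (div_le_one h2).2 h1
  exact div_nonneg (by linarith) (pow_nonneg (one_sub_pos hp).le _)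

lemma locT_le {T : Finset ℕ} {p : ℕ} (hp : p.Prime) : locT T p ≤ rr p ^ T.card := by
  unfold locT rr
  rw [inv_pow, ← one_div]
  refine div_le_div_of_nonneg_right ?_ (pow_pos (one_sub_pos hp) _).le
  have : (0 : ℝ) ≤ (nuT T p : ℝ) / p := by positivity
  linarith

lemma locT_le_one {T : Finset ℕ} {p : ℕ} (hp : p.Prime) (h : nuT T p = T.card) :
    locT T p ≤ 1 := by
  unfold locT
  rw [h, div_le_one (pow_pos (one_sub_pos hp) _)]
  have h1 := one_add_mul_le_pow (a := -(1 / (p : ℝ))) (by have := inv_le_half hp; linarith) T.card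
  have h2 : (1 : ℝ) + (T.card : ℝ) * -(1 / (p : ℝ)) = 1 - (T.card : ℝ) / p := by ring
  rw [h2] at h1
  exact h1

lemma CT_le_hh (T : Finset ℕ) (W : ℕ) (hW : W ≠ 0)
    (h : ∀ p : ℕ, p.Prime → ¬ p ∣ W → nuT T p = T.card) : CT T ≤ hh W ^ T.card := by
  refine le_of_tendsto' (CT_hasProd T) fun P => ?_
  have h1 : ∏ p ∈ P, locT T (p : ℕ) ≤
      ∏ p ∈ P, (if (p : ℕ) ∣ W then rr (p : ℕ) ^ T.card else 1) := by
    refine Finset.prod_le_prod (fun p _ => locT_nonneg p.2) fun p _ => ?_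
    split_ifs with hd
    · exact locT_le p.2
    · exact locT_le_one p.2 (h p p.2 hd)
  refine h1.trans ?_
  rw [← Finset.prod_filter]
  have h2 : ∏ p ∈ P.filter (fun p : Nat.Primes => (p : ℕ) ∣ W), rr (p : ℕ) ^ T.card =
      ∏ p ∈ (P.filter (fun p : Nat.Primes => (p : ℕ) ∣ W)).map
        ⟨fun p : Nat.Primes => (p : ℕ), Subtype.val_injective⟩, rr p ^ T.card := by
    rw [Finset.prod_map]
    rfl
  rw [h2, hh, ← Finset.prod_pow]
  refine Finset.prod_le_prod_of_subset_of_one_le ?_ ?_ ?_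
  · intro p hp
    obtain ⟨p', hp', rfl⟩ := Finset.mem_map.1 hp
    rw [Finset.mem_filter] at hp'
    exact Nat.mem_primeFactors.2 ⟨p'.2, hp'.2, hW⟩
  · intro p hp
    obtain ⟨p', hp', rfl⟩ := Finset.mem_map.1 hp
    exact pow_nonneg (zero_le_one.trans (one_le_rr p'.2)) _
  · intro p hp _
    exact one_le_pow₀ (one_le_rr (Nat.prime_of_mem_primeFactors hp))

lemma prime_dvd_dist {p a b : ℕ} (h : a % p = b % p) : p ∣ Nat.dist a b := by
  have h' : a ≡ b [MOD p] := h
  rcases le_total a b with hab | hab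
  · rw [Nat.dist_eq_sub_of_le hab]
    exact (Nat.modEq_iff_dvd' hab).1 h'
  · rw [Nat.dist_eq_sub_of_le_right hab]
    exact (Nat.modEq_iff_dvd' hab).1 h'.symm

/-- the pairs of different indices -/
def prs (k : ℕ) : Finset (Fin (k + 1) × Fin (k + 1)) := univ.filter fun x => x.1 ≠ x.2

lemma CT_tuple (k M : ℕ) (hM : 1 ≤ M) (F : Fin (k + 1) → ℕ) (hF : Function.Injective F)
    (C' : ℝ) (hC' : 1 ≤ C') (h : ∀ x ∈ prs k, hh (Nat.dist (F x.1) (F x.2)) ^ (k + 1) ≤ C') :
    CT (univ.image (fun i => M * F i)) ≤ hh M ^ (k + 1) * C' ^ (prs k).card := by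
  have hinj : Function.Injective fun i => M * F i := by
    intro i j hij
    exact hF (Nat.eq_of_mul_eq_mul_left (by omega) hij)
  have hcard : (univ.image (fun i => M * F i)).card = k + 1 := by
    rw [Finset.card_image_of_injective _ hinj, Finset.card_univ, Fintype.card_fin]
  have hd0 : ∀ x ∈ prs k, Nat.dist (F x.1) (F x.2) ≠ 0 := by
    intro x hx h0
    have h1 := Nat.eq_of_dist_eq_zero h0
    exact (Finset.mem_filter.1 hx).2 (hF h1)
  have hP0 : ∏ x ∈ prs k, Nat.dist (F x.1) (F x.2) ≠ 0 := Finset.prod_ne_zero_iff.2 hd0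
  have hM0 : M ≠ 0 := by omega
  have h1 := CT_le_hh (univ.image (fun i => M * F i)) (M * ∏ x ∈ prs k, Nat.dist (F x.1) (F x.2))
    (mul_ne_zero hM0 hP0) (by
      intro p hp hnd
      unfold nuT
      rw [Finset.image_image, hcard, Finset.card_image_of_injective, Finset.card_univ,
        Fintype.card_fin]
      intro i j hij
      by_contra hne
      have hij' : (M * F i) % p = (M * F j) % p := hij
      have h2 := prime_dvd_dist hij'
      rw [Nat.dist_mul_left] at h2
      apply hnd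
      rcases (Nat.Prime.dvd_mul hp).1 h2 with h3 | h3
      · exact dvd_mul_of_dvd_left h3 _
      · refine dvd_mul_of_dvd_right ?_ _
        exact h3.trans (Finset.dvd_prod_of_mem (fun x : Fin (k + 1) × Fin (k + 1) =>
          Nat.dist (F x.1) (F x.2)) (Finset.mem_filter.2 ⟨Finset.mem_univ (i, j), hne⟩)))
  rw [hcard] at h1
  refine h1.trans ?_
  have h2 : hh (M * ∏ x ∈ prs k, Nat.dist (F x.1) (F x.2)) ≤
      hh M * ∏ x ∈ prs k, hh (Nat.dist (F x.1) (F x.2)) :=
    (hh_mul_le hM0 hP0).trans (mul_le_mul_of_nonneg_left (hh_prod_le _ _ hd0)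
      (zero_le_one.trans (one_le_hh _)))
  refine (pow_le_pow_left₀ (zero_le_one.trans (one_le_hh _)) h2 _).trans ?_
  rw [mul_pow]
  refine mul_le_mul_of_nonneg_left ?_ (pow_nonneg (zero_le_one.trans (one_le_hh _)) _)
  rw [← Finset.prod_pow]
  refine (Finset.prod_le_prod (fun x _ => pow_nonneg (zero_le_one.trans (one_le_hh _)) _)
    h).trans ?_
  rw [Finset.prod_const]

/-! ### counting -/

open Classical in
lemma count_a (q T b : ℕ) (hb : b < T) (C' : ℝ) :
    ((range T).filter fun a => a ≠ b ∧ C' < hh (Nat.dist a b) ^ q).card ≤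
      2 * ((Ico 1 T).filter fun d => C' < hh d ^ q).card := by
  set D := (Ico 1 T).filter fun d => C' < hh d ^ q with hD
  have h1 : ((range T).filter fun a => a ≠ b ∧ C' < hh (Nat.dist a b) ^ q) ⊆
      D.image (fun d => b - d) ∪ D.image (fun d => b + d) := by
    intro a ha
    rw [Finset.mem_filter, Finset.mem_range] at ha
    obtain ⟨haT, hne, hC⟩ := ha
    rw [Finset.mem_union, Finset.mem_image, Finset.mem_image]
    rcases lt_or_gt_of_ne hne with hab | hab
    · left
      rw [Nat.dist_eq_sub_of_le hab.le] at hC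
      refine ⟨b - a, ?_, by omega⟩
      rw [hD, Finset.mem_filter, Finset.mem_Ico]
      exact ⟨⟨by omega, by omega⟩, hC⟩
    · right
      rw [Nat.dist_eq_sub_of_le_right (le_of_lt hab)] at hC
      refine ⟨a - b, ?_, by omega⟩
      rw [hD, Finset.mem_filter, Finset.mem_Ico]
      exact ⟨⟨by omega, by omega⟩, hC⟩
  calc _ ≤ (D.image (fun d => b - d) ∪ D.image (fun d => b + d)).card := Finset.card_le_card h1
    _ ≤ (D.image (fun d => b - d)).card + (D.image (fun d => b + d)).card :=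
      Finset.card_union_le _ _
    _ ≤ D.card + D.card := add_le_add Finset.card_image_le Finset.card_image_le
    _ = 2 * D.card := by ring

open Classical in
lemma count_pair (k q T : ℕ) (i j : Fin (k + 1)) (hij : i ≠ j) (C' : ℝ) :
    (((Fintype.piFinset (fun _ : Fin (k + 1) => range T)).filter (fun F => F i ≠ F j ∧
      C' < hh (Nat.dist (F i) (F j)) ^ q)).card) ≤
      (2 * ((Ico 1 T).filter fun d => C' < hh d ^ q).card) * T ^ k := by
  obtain ⟨j', hj'⟩ := Fin.exists_succAbove_eq (Ne.symm hij)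
  have hT : (Fintype.piFinset (fun _ : Fin k => range T)).card = T ^ k := by
    rw [Fintype.card_piFinset]
    simp
  rw [← hT]
  refine Finset.card_le_mul_card_image_of_maps_to (f := fun F : Fin (k + 1) → ℕ =>
    fun l : Fin k => F (i.succAbove l)) ?_ _ ?_
  · intro F hF
    rw [Finset.mem_filter, Fintype.mem_piFinset] at hF
    rw [Fintype.mem_piFinset]
    exact fun l => hF.1 _
  · intro G hG
    rw [Fintype.mem_piFinset] at hG
    have hb : G j' < T := Finset.mem_range.1 (hG j')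
    refine le_trans ?_ (count_a q T (G j') hb C')
    refine Finset.card_le_card_of_injOn (fun F => F i) ?_ ?_
    · intro F hF
      have hF' := Finset.mem_filter.1 hF
      have hF1 := Finset.mem_filter.1 hF'.1
      have e : F j = G j' := by
        rw [← hF'.2]
        change F j = F (i.succAbove j')
        rw [hj']
      rw [Finset.mem_coe, Finset.mem_filter]
      refine ⟨(Fintype.mem_piFinset.1 hF1.1) i, ?_, ?_⟩
      · rw [← e]
        exact hF1.2.1
      · rw [← e]
        exact hF1.2.2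
    · intro F hF F' hF' h
      have hF1 := (Finset.mem_filter.1 hF).2
      have hF2 := (Finset.mem_filter.1 hF').2
      funext l
      by_cases hl : l = i
      · rw [hl]
        exact h
      · obtain ⟨l', rfl⟩ := Fin.exists_succAbove_eq hl
        have e1 := congrFun hF1 l'
        have e2 := congrFun hF2 l'
        exact e1.trans e2.symm

open Classical in
theorem main : Pool.Agent.N646.RO.S_SS := by
  intro k M ε hM hε
  obtain ⟨A, hA, havg⟩ := avg (k + 1)
  set m : ℕ := (prs k).card with hm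
  set C' : ℝ := max 1 (2 * m * A / ε) with hC'
  have hC1 : 1 ≤ C' := le_max_left _ _
  have hC0 : 0 < C' := by linarith
  have hC2 : 2 * m * A ≤ ε * C' := by
    have h1 : 2 * m * A / ε ≤ C' := le_max_right _ _
    rw [div_le_iff₀ hε] at h1
    linarith
  refine ⟨hh M ^ (k + 1) * C' ^ m, by
    have := one_le_hh M
    positivity, fun T => ?_⟩
  have hD : (((Ico 1 T).filter fun d => C' < hh d ^ (k + 1)).card : ℝ) * C' ≤ A * T := by
    refine le_trans ?_ (havg T)
    rw [← nsmul_eq_mul]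
    calc ((Ico 1 T).filter fun d => C' < hh d ^ (k + 1)).card • C'
        ≤ ∑ d ∈ (Ico 1 T).filter fun d => C' < hh d ^ (k + 1), hh d ^ (k + 1) :=
          Finset.card_nsmul_le_sum _ _ _ fun d hd => (Finset.mem_filter.1 hd).2.le
      _ ≤ ∑ d ∈ Ico 1 T, hh d ^ (k + 1) :=
          Finset.sum_le_sum_of_subset_of_nonneg (Finset.filter_subset _ _)
            fun d _ _ => pow_nonneg (zero_le_one.trans (one_le_hh _)) _
  have hsub : ((Fintype.piFinset (fun _ : Fin (k + 1) => range T)).filter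
      (fun F => Function.Injective F ∧ hh M ^ (k + 1) * C' ^ m <
        Pool.Agent.H387R2.Uni.CT (univ.image (fun i => M * F i)))) ⊆
      (prs k).biUnion fun x => (Fintype.piFinset (fun _ : Fin (k + 1) => range T)).filter
        (fun F => F x.1 ≠ F x.2 ∧ C' < hh (Nat.dist (F x.1) (F x.2)) ^ (k + 1)) := by
    intro F hF
    obtain ⟨h1, h2, h3⟩ := Finset.mem_filter.1 hF
    rw [Finset.mem_biUnion]
    by_contra hcon
    push Not at hcon
    have h4 := CT_tuple k M hM F h2 C' hC1 (by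
      intro x hx
      by_contra h5
      apply hcon x hx
      rw [Finset.mem_filter]
      exact ⟨h1, fun h6 => (Finset.mem_filter.1 hx).2 (h2 h6), not_le.1 h5⟩)
    exact absurd h3 (not_lt.2 h4)
  have hcard := (Finset.card_le_card hsub).trans Finset.card_biUnion_le
  have hsum : ∑ x ∈ prs k, ((Fintype.piFinset (fun _ : Fin (k + 1) => range T)).filter
        (fun F => F x.1 ≠ F x.2 ∧ C' < hh (Nat.dist (F x.1) (F x.2)) ^ (k + 1))).card ≤
      ∑ _x ∈ prs k, (2 * ((Ico 1 T).filter fun d => C' < hh d ^ (k + 1)).card) * T ^ k :=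
    Finset.sum_le_sum fun x hx => count_pair k (k + 1) T x.1 x.2 (Finset.mem_filter.1 hx).2 C'
  rw [Finset.sum_const, smul_eq_mul, ← hm] at hsum
  have hfin := hcard.trans hsum
  have hfin' : (((Fintype.piFinset (fun _ : Fin (k + 1) => range T)).filter
      (fun F => Function.Injective F ∧ hh M ^ (k + 1) * C' ^ m <
        Pool.Agent.H387R2.Uni.CT (univ.image (fun i => M * F i)))).card : ℝ) ≤
      (m : ℝ) * ((2 * (((Ico 1 T).filter fun d => C' < hh d ^ (k + 1)).card : ℝ)) * (T : ℝ) ^ k) := by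
    exact_mod_cast hfin
  refine hfin'.trans ?_
  set D := (((Ico 1 T).filter fun d => C' < hh d ^ (k + 1)).card : ℝ) with hDdef
  have hT0 : (0 : ℝ) ≤ (T : ℝ) ^ k := by positivity
  have h5 : (m : ℝ) * 2 * D * C' ≤ ε * T * C' := by
    have h6 : (m : ℝ) * 2 * (D * C') ≤ (m : ℝ) * 2 * (A * T) :=
      mul_le_mul_of_nonneg_left hD (by positivity)
    have h7 : (2 * m * A) * T ≤ (ε * C') * T := mul_le_mul_of_nonneg_right hC2 (by positivity)
    linarith
  have h8 : (m : ℝ) * 2 * D ≤ ε * T := le_of_mul_le_mul_right h5 hC0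
  calc (m : ℝ) * ((2 * D) * (T : ℝ) ^ k) = ((m : ℝ) * 2 * D) * (T : ℝ) ^ k := by ring
    _ ≤ (ε * T) * (T : ℝ) ^ k := mul_le_mul_of_nonneg_right h8 hT0
    _ = ε * (T : ℝ) ^ (k + 1) := by ring

end Pool.Agent.N647.RQSS
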